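import Pool.Agent.H71.CR.Stmt

/-! Row CLF: the closure is the union of the closures in finite sets. -/

set_option autoImplicit false

open Set Pool.Agent.TK Pool.Agent.H71.VK

namespace Pool.Agent.CR

private lemma h24_restr {c : Lf} {L : List ℕ} {F : Ed} {U1 U2 Z : Set ℕ} (h : U1 ⊆ U2)
    (hZ : Cc c L F U2 Z) : Cc c L F U1 (Z ∩ U1) := by
  refine ⟨inter_subset_right, ?_, ?_⟩
  · intro p hp hpl D hD
    exact hZ.ctl p (fun z hz => ⟨(hp z hz).1.1, (hp z hz).2.1⟩) hpl D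
      (fun y hy => ⟨h (hD y hy).1, fun hyZ => (hD y hy).2 ⟨hyZ, (hD y hy).1⟩⟩)
  · intro e he d hd hdU hpl hex
    obtain ⟨y, hy, hyZ⟩ := hex
    intro w hw
    exact ⟨hZ.edg e he d hd (fun a ha => h (hdU a ha)) hpl ⟨y, hy, hyZ.1⟩ w hw, hdU w hw⟩

private lemma h24_clle {c : Lf} {L : List ℕ} {F : Ed} {P P' : Set ℕ} {x : Xr}
    (h : ∀ a ∈ Ur P L, a ∈ P') (hx : ∀ a ∈ x.1, a ∈ Ur P L) :
    cl c P L F x ⊆ cl c P' L F x := by
  intro y hy
  have hsub : Ur P L ⊆ Ur P' L := fun a ha => ⟨h a ha, ha.2⟩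
  refine ⟨hsub hy.1, fun Z hZ hxZ => ?_⟩
  exact (hy.2 _ (h24_restr hsub hZ) fun a ha => ⟨hxZ a ha, hx a ha⟩).1

/-- `y` is in the closure in a finite set -/
private def h24_Zs (c : Lf) (P : Set ℕ) (L : List ℕ) (F : Ed) (x : Xr) : Set ℕ :=
  {y | ∃ W : List ℕ, (∀ a ∈ W, a ∈ Ur P L) ∧ (∀ a ∈ x.1, a ∈ W) ∧ y ∈ cl c (ms W) L F x}

private lemma h24_list {c : Lf} {P : Set ℕ} {L : List ℕ} {F : Ed} {x : Xr}
    (hx : ∀ a ∈ x.1, a ∈ Ur P L) :
    ∀ l : List ℕ, (∀ y ∈ l, y ∈ h24_Zs c P L F x) →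
      ∃ W : List ℕ, (∀ a ∈ W, a ∈ Ur P L) ∧ (∀ a ∈ x.1, a ∈ W) ∧
        ∀ y ∈ l, y ∈ cl c (ms W) L F x
  | [], _ => ⟨x.1, hx, fun _ h => h, by simp⟩
  | y :: l, h => by
    obtain ⟨W, h1, h2, h3⟩ := h24_list hx l (fun z hz => h z (List.mem_cons_of_mem _ hz))
    obtain ⟨W', k1, k2, k3⟩ := h y List.mem_cons_self
    refine ⟨W' ++ W, ?_, fun a ha => List.mem_append_right _ (h2 a ha), ?_⟩
    · intro a ha
      rcases List.mem_append.1 ha with ha | ha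
      · exact k1 a ha
      · exact h1 a ha
    · intro z hz
      rcases List.mem_cons.1 hz with rfl | hz
      · exact h24_clle (fun a ha => List.mem_append_left _ ha.1)
          (fun a ha => ⟨k2 a ha, (hx a ha).2⟩) k3
      · exact h24_clle (fun a ha => List.mem_append_right _ ha.1)
          (fun a ha => ⟨h2 a ha, (hx a ha).2⟩) (h3 z hz)

private lemma h24_cc {c : Lf} {P : Set ℕ} {L : List ℕ} {F : Ed} {x : Xr}
    (hx : ∀ a ∈ x.1, a ∈ Ur P L) : Cc c L F (Ur P L) (h24_Zs c P L F x) := by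
  refine ⟨?_, ?_, ?_⟩
  · rintro y ⟨W, h1, -, h3⟩
    exact h1 y h3.1.1
  · intro p hp hpl D hD
    obtain ⟨W, h1, h2, h3⟩ := h24_list hx (p.map Prod.fst ++ p.map Prod.snd) (by
      intro y hy
      rcases List.mem_append.1 hy with hy | hy
      · obtain ⟨z, hz, rfl⟩ := List.mem_map.1 hy
        exact (hp z hz).1
      · obtain ⟨z, hz, rfl⟩ := List.mem_map.1 hy
        exact (hp z hz).2)
    have hW : ∀ a ∈ D ++ W, a ∈ Ur P L := by
      intro a ha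
      rcases List.mem_append.1 ha with ha | ha
      · exact (hD a ha).1
      · exact h1 a ha
    have hxW : ∀ a ∈ x.1, a ∈ Ur (ms (D ++ W)) L :=
      fun a ha => ⟨List.mem_append_right _ (h2 a ha), (hx a ha).2⟩
    have hle : cl c (ms W) L F x ⊆ cl c (ms (D ++ W)) L F x :=
      h24_clle (fun a ha => List.mem_append_right _ ha.1) (fun a ha => ⟨h2 a ha, (hx a ha).2⟩)
    refine (cc_cl hxW).ctl p (fun z hz => ⟨hle (h3 _ ?_), hle (h3 _ ?_)⟩) hpl D (fun y hy => ?_)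
    · exact List.mem_append_left _ (List.mem_map_of_mem hz)
    · exact List.mem_append_right _ (List.mem_map_of_mem hz)
    · refine ⟨⟨List.mem_append_left _ hy, (hD y hy).1.2⟩, fun hyZ => (hD y hy).2 ?_⟩
      exact ⟨D ++ W, hW, fun a ha => (hxW a ha).1, hyZ⟩
  · intro e he d hd hdU hpl hex
    obtain ⟨y, hy, W, h1, h2, h3⟩ := hex
    have hW : ∀ a ∈ d ++ W, a ∈ Ur P L := by
      intro a ha
      rcases List.mem_append.1 ha with ha | ha
      · exact hdU a ha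
      · exact h1 a ha
    have hxW : ∀ a ∈ x.1, a ∈ Ur (ms (d ++ W)) L :=
      fun a ha => ⟨List.mem_append_right _ (h2 a ha), (hx a ha).2⟩
    have hle : cl c (ms W) L F x ⊆ cl c (ms (d ++ W)) L F x :=
      h24_clle (fun a ha => List.mem_append_right _ ha.1) (fun a ha => ⟨h2 a ha, (hx a ha).2⟩)
    intro w hw
    exact ⟨d ++ W, hW, fun a ha => (hxW a ha).1, (cc_cl hxW).edg e he d hd
      (fun a ha => ⟨List.mem_append_left _ ha, (hdU a ha).2⟩) hpl ⟨y, hy, hle h3⟩ w hw⟩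

theorem pf_CLF : T_CLF := by
  intro c P L F x hx y
  constructor
  · intro hy
    exact cl_min (h24_cc hx) (fun a ha => ⟨x.1, hx, fun _ h => h,
      base_mem_cl (fun b hb => ⟨hb, (hx b hb).2⟩) ha⟩) hy
  · rintro ⟨W, h1, h2, h3⟩
    exact h24_clle (fun a ha => (h1 a ha.1).1) (fun a ha => ⟨h2 a ha, (hx a ha).2⟩) h3

end Pool.Agent.CR
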