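import Pool.Agent.H71.CR.Stmt

/-! Row EMA: imitation of an automorphism on a piece. -/

set_option autoImplicit false

open Set Pool.Agent.TK Pool.Agent.H71.VK

namespace Pool.Agent.CR

open Pool.Agent.H94.VK (isoH_fih)

private lemma h24_bnA {C : Type} {M : St (C × ℕ)} {k : Equiv.Perm ℕ} (hk : IsoH k M M) :
    ∀ l : List ℕ, bn M (l.map k) = bn M l := by
  intro l
  unfold bn
  rw [← hk.2 l]

theorem pf_EMA {C : Type} {c0 : C} (hGLA : T_GLA C c0) : T_EMA C c0 := by
  intro n O M hM π hV hO k hk Z hZ hkZ v hv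
  have hb := h24_bnA hk
  have hfix : ∀ a ∈ dl π, k a = a := fun a ha => hkZ a (hZ ha)
  have himg : k '' st (bn M) π = st (bn M) π := st_fix k hb hfix
  have hFI : FIh k M (zl π) (st (bn M) π) M (zl π) (st (bn M) π) :=
    isoH_fih hk (fun z hz => hfix z (zl_sub_dl π hz)) himg
  obtain ⟨f, f1, f2, f3⟩ := hGLA n M hM π hV k hFI
  refine ⟨f, Subgroup.subset_closure (Or.inl ⟨f1, π, hV, hO, f3⟩), f2 v hv, fun x hx => ?_⟩
  by_cases h : x ∈ st (bn M) π
  · rw [f2 x h, hkZ x hx]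
  · exact f3 x h

end Pool.Agent.CR
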