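import Pool.Agent.H71.CR.Stmt

/-! Row EMS: imitation of an automorphism on an atom. -/

set_option autoImplicit false

open Set Pool.Agent.TK Pool.Agent.H71.VK

namespace Pool.Agent.CR

open Pool.Agent.H94.VK (isoH_fih)

private lemma h24_bnS {C : Type} {M : St (C × ℕ)} {k : Equiv.Perm ℕ} (hk : IsoH k M M) :
    ∀ l : List ℕ, bn M (l.map k) = bn M l := by
  intro l
  unfold bn
  rw [← hk.2 l]

private lemma h24_flat {k : ℕ → ℕ} {F : Ed} (h : ∀ a ∈ F.flatten, k a = a) :
    F.map (List.map k) = F := by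
  conv_rhs => rw [← List.map_id F]
  refine List.map_congr_left fun e he => ?_
  exact map_fix fun a ha => h a (List.mem_flatten.2 ⟨e, he, ha⟩)

theorem pf_EMS {C : Type} {c0 : C} (hGLA : T_GLA C c0) (hGSW : T_GSW C c0) : T_EMS C c0 := by
  intro n O M hM π S F v R hV hC hO k hk Z hZ hS hF hkZ hsw
  have hb := h24_bnS hk
  have hfix : ∀ a ∈ dl π, k a = a := fun a ha => hkZ a (hZ ha)
  have hfixS : ∀ a ∈ S, k a = a := fun a ha => hkZ a (hS ha)
  have hfixF : ∀ a ∈ F.flatten, k a = a := fun a ha => hkZ a (hF ha)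
  have hmp : mp k π = π := mp_fix hfix
  have hSk : S.map k = S := map_fix hfixS
  have hFk : F.map (List.map k) = F := h24_flat hfixF
  have hmp' : mp k ((S, F, ([v], R), true) :: π) = (S, F, ([k v], R.map k), true) :: π := by
    rw [mp_cons]
    simp only
    rw [hSk, hmp, hFk]
    rfl
  have himg : st (bn M) ((S, F, ([k v], R.map k), true) :: π) =
      k '' st (bn M) ((S, F, ([v], R), true) :: π) := by
    rw [← hmp']
    exact st_iso k hb _
  have hV' : Vd (bn M) ((S, F, ([k v], R.map k), true) :: π) := by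
    rw [← hmp']
    exact (vd_iso k hb _).2 hV
  have hC' : Vc (bn M) (st (bn M) π) (S ++ zl π) F (k v) := by
    have h1 := vc_iso k hb hC
    rw [st_fix k hb hfix, List.map_append, hSk, hFk,
      map_fix (fun a ha => hfix a (zl_sub_dl π ha))] at h1
    exact h1
  have hzfix : ∀ z ∈ S ++ zl π, k z = z := by
    intro z hz
    rcases List.mem_append.1 hz with h | h
    · exact hfixS z h
    · exact hfix z (zl_sub_dl π h)
  have hvm : v ∈ st (bn M) ((S, F, ([v], R), true) :: π) :=
    base_mem_cl ((vd_cons.1 hV).2.2.2.1) List.mem_cons_self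
  by_cases hkv : k v ∈ st (bn M) ((S, F, ([v], R), true) :: π)
  · have heq : st (bn M) ((S, F, ([k v], R.map k), true) :: π) =
        st (bn M) ((S, F, ([v], R), true) :: π) := by
      rw [st_true, st_true] at *
      exact vc_eq hC R (R.map k) hkv
    have hFI : FIh k M (S ++ zl π) (st (bn M) ((S, F, ([v], R), true) :: π)) M (S ++ zl π)
        (st (bn M) ((S, F, ([v], R), true) :: π)) :=
      isoH_fih hk hzfix (himg.symm.trans heq)
    obtain ⟨f, f1, f2, f3⟩ := hGLA n M hM _ hV k hFI
    refine ⟨f, Subgroup.subset_closure (Or.inl ⟨f1, _, hV, hO, f3⟩), f2 v hvm,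
      fun x hx => ?_⟩
    by_cases h : x ∈ st (bn M) ((S, F, ([v], R), true) :: π)
    · rw [f2 x h, hkZ x hx]
    · exact f3 x h
  · have hFI : FIh k M (S ++ zl π) (st (bn M) ((S, F, ([v], R), true) :: π)) M (S ++ zl π)
        (st (bn M) ((S, F, ([k v], R.map k), true) :: π)) :=
      isoH_fih hk hzfix himg.symm
    have hsw' : Swp (bn M) (st (bn M) π) (S ++ zl π)
        (st (bn M) ((S, F, ([v], R), true) :: π))
        (st (bn M) ((S, F, ([k v], R.map k), true) :: π)) := by
      rw [himg]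
      exact hsw hkv
    obtain ⟨f, f1, f2, f3, f4, f5⟩ := hGSW n M hM π S F v (k v) R (R.map k) hV hV' hC hC' hkv
      hsw' k hFI
    have hkU : k v ∈ Ur (st (bn M) π) (S ++ zl π) :=
      (vd_cons.1 hV').2.2.2.1 (k v) List.mem_cons_self
    have hdis : ∀ w ∈ st (bn M) ((S, F, ([v], R), true) :: π),
        w ∉ st (bn M) ((S, F, ([k v], R.map k), true) :: π) :=
      vc_disj hC hC' R (R.map k) hkU hkv
    refine ⟨f, Subgroup.subset_closure (Or.inr ⟨f1, f2, π, S, F, v, k v, R, R.map k, hV, hV', hC,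
      hC', hkv, hO, hsw', f4, f5⟩), f3 v hvm, fun x hx => ?_⟩
    have hx1 : x ∉ st (bn M) ((S, F, ([v], R), true) :: π) := by
      intro h
      refine hdis x h ?_
      rw [himg]
      exact ⟨x, h, hkZ x hx⟩
    have hx2 : x ∉ st (bn M) ((S, F, ([k v], R.map k), true) :: π) := by
      intro h
      rw [himg] at h
      obtain ⟨w, hw, hwx⟩ := h
      exact hx1 (k.injective (hwx.trans (hkZ x hx).symm) ▸ hw)
    exact f5 x hx1 hx2

end Pool.Agent.CR
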