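import Pool.Agent.H71.CR.Stmt

/-! Row RP0: nothing is replaced; dependence on the replaced blocks. -/

set_option autoImplicit false

open Set Pool.Agent.TK Pool.Agent.H71.VK

namespace Pool.Agent.CR

private lemma h24_ps {C ι : Type} {M : St (C × ℕ)} {B : ι → Set ℕ} {z : ι → List ℕ}
    {R R' : ι → St (C × ℕ)} {T : Set ι} (h : ∀ i ∈ T, R i = R' i) {r : Rk}
    {p : List (ℕ × ℕ)} : Ps M B z R T r p → Ps M B z R' T r p := by
  intro hp
  refine ⟨hp.1, hp.2.1, fun i hi => ?_⟩
  rw [← h i hi]
  exact hp.2.2 i hi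

theorem pf_RP0 {C : Type} : T_RP0 C := by
  intro ι M B z R R'
  constructor
  · refine Prod.ext rfl (funext fun l => ?_)
    unfold rp
    simp only
    rw [dif_neg (by rintro ⟨i, hi, -⟩; exact hi)]
    by_cases h' : ∃ q : List (ℕ × ℕ), q.map Prod.fst = l ∧ Ps M B z R ∅ Rk.zero q
    · rw [dif_pos h']
      obtain ⟨h1, h2⟩ := h'.choose_spec
      have h3 : h'.choose.map Prod.snd = h'.choose.map Prod.fst :=
        List.map_congr_left fun q hq => (h2.1 q hq (by intro i hi; exact absurd hi (by simp))).symm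
      rw [h3, h1]
    · rw [dif_neg h']
  · intro T hR hB
    refine Prod.ext rfl (funext fun l => ?_)
    have e2 : (fun q : List (ℕ × ℕ) => q.map Prod.fst = l ∧ Ps M B z R T Rk.zero q) =
        fun q => q.map Prod.fst = l ∧ Ps M B z R' T Rk.zero q := by
      funext q
      refine propext (and_congr_right fun _ => ⟨h24_ps hR, h24_ps fun i hi => (hR i hi).symm⟩)
    unfold rp
    simp only
    by_cases h : ∃ i ∈ T, l ≠ [] ∧ ∀ x ∈ l, x ∈ B i
    · rw [dif_pos h, dif_pos h, hR _ h.choose_spec.1]
    · rw [dif_neg h, dif_neg h]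
      have key : ∀ p p' : List (ℕ × ℕ) → Prop, p = p' →
          (open Classical in if h' : ∃ q, p q then M.2 (h'.choose.map Prod.snd) else M.2 l) =
          (open Classical in if h' : ∃ q, p' q then M.2 (h'.choose.map Prod.snd) else M.2 l) := by
        rintro p _ rfl
        rfl
      exact key _ _ e2

end Pool.Agent.CR
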